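import Pool.Agent.V8H63.GD.Step

set_option autoImplicit false

/-!
# The divisor criterion
-/

namespace Pool.Agent.V8H63.GD

open scoped TensorProduct
open Polynomial H39Gon H39Gon.C4 H39Gon.TC2 Pool.Agent.TH358.GP

/-- an element which is not torsion modulo `S` is detected by a functional -/
theorem exists_functional {A : Type} [AddCommGroup A] (S : Submodule ℤ A) (β : A)
    (h : ∀ N : ℕ, 0 < N → N • β ∉ S) : ∃ θ : A →ₗ[ℤ] ℚ, (∀ r ∈ S, θ r = 0) ∧ θ β = 1 := by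
  have hinj : Function.Injective (LinearMap.toSpanSingleton ℤ (A ⧸ S) (S.mkQ β)) := by
    rw [injective_iff_map_eq_zero]
    intro n hn
    rw [LinearMap.toSpanSingleton_apply, ← map_smul, Submodule.mkQ_apply,
      Submodule.Quotient.mk_eq_zero] at hn
    by_contra hn0
    have h1 : (n.natAbs) • β ∈ S := by
      rw [← natCast_zsmul]
      rcases Int.natAbs_eq n with h2 | h2
      · rw [← h2]; exact hn
      · have h3 : ((n.natAbs : ℕ) : ℤ) = -n := by omega
        rw [h3, neg_smul]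
        exact Submodule.neg_mem _ hn
    exact h n.natAbs (Int.natAbs_pos.2 hn0) h1
  let _ := divQ ℚ
  have hB : Module.Baer ℤ ℚ := Module.Baer.of_divisible ℚ
  obtain ⟨L, hL⟩ := hB.extension_property _ hinj (LinearMap.toSpanSingleton ℤ ℚ 1)
  refine ⟨L ∘ₗ S.mkQ, fun r hr => ?_, ?_⟩
  · have h1 : S.mkQ r = 0 := by
      rw [Submodule.mkQ_apply, Submodule.Quotient.mk_eq_zero]
      exact hr
    rw [LinearMap.comp_apply, h1, map_zero]
  · have h2 := LinearMap.congr_fun hL 1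
    rw [LinearMap.comp_apply, LinearMap.toSpanSingleton_apply, LinearMap.toSpanSingleton_apply,
      one_smul, one_smul] at h2
    exact h2

variable {K : Type} [Field K]

/-- `{f} ↦ Ψ(div(1 - f), div f; div f, ...)` -/
noncomputable def dfun {m : ℕ} (Ψ : (K →₀ ℤ) →ₗ[ℤ] (K →₀ ℤ) →ₗ[ℤ] ML K m ℚ) :
    P1 (RatFunc K) → ℚ
  | none => 0
  | some f => dform Ψ f

/-- pull back of a form to the units -/
noncomputable def pb {m : ℕ} (Ψ : (K →₀ ℤ) →ₗ[ℤ] (K →₀ ℤ) →ₗ[ℤ] ML K m ℚ) :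
    UV (RatFunc K) →ₗ[ℤ] UV (RatFunc K) →ₗ[ℤ]
      MultilinearMap ℤ (fun _ : Fin m => UV (RatFunc K)) ℚ :=
  LinearMap.mk₂ ℤ (fun a b => (Ψ (dv a) (dv b)).compLinearMap (fun _ => dv))
    (by intro a a' b; ext c; simp)
    (by intro n a b; ext c; simp)
    (by intro a b b'; ext c; simp)
    (by intro n a b; ext c; simp)

theorem pb_apply {m : ℕ} (Ψ : (K →₀ ℤ) →ₗ[ℤ] (K →₀ ℤ) →ₗ[ℤ] ML K m ℚ)
    (a b : UV (RatFunc K)) (c : Fin m → UV (RatFunc K)) :
    pb Ψ a b c = Ψ (dv a) (dv b) (fun i => dv (c i)) := rfl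

theorem pb_alt {m : ℕ} (Ψ : (K →₀ ℤ) →ₗ[ℤ] (K →₀ ℤ) →ₗ[ℤ] ML K m ℚ) (h : ∀ a, Ψ a a = 0)
    (a : UV (RatFunc K)) : pb Ψ a a = 0 := by
  ext c
  rw [pb_apply, h]
  rfl

theorem ev_pb {m : ℕ} (Ψ : (K →₀ ℤ) →ₗ[ℤ] (K →₀ ℤ) →ₗ[ℤ] ML K m ℚ) (α : ZP (RatFunc K)) :
    ev (pb Ψ) α = α.sum (fun x n => n • dfun Ψ x) := by
  induction α using Finsupp.induction_linear with
  | zero => simp
  | add a b ha hb =>
    rw [map_add, ha, hb, Finsupp.sum_add_index']
    · intro a; rw [zero_smul]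
    · intro a m n; rw [add_smul]
  | single x n =>
    rw [Finsupp.sum_single_index (by rw [zero_smul])]
    cases x with
    | none => rw [ev_single_none]; exact (smul_zero n).symm
    | some f =>
      rw [ev_single_some, pb_apply, dv_cl, dv_cl]
      rfl

theorem ev_pb_const {m : ℕ} (Ψ : (K →₀ ℤ) →ₗ[ℤ] (K →₀ ℤ) →ₗ[ℤ] ML K m ℚ) (v : ZP K) :
    ev (pb Ψ) (rmM (RatFunc.C : K →+* RatFunc K) v) = 0 := by
  induction v using Finsupp.induction_linear with
  | zero => simp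
  | add a b ha hb => rw [map_add, map_add, ha, hb, add_zero]
  | single x n =>
    rw [rmM_single]
    cases x with
    | none => rw [Option.map_none, ev_single_none]
    | some y =>
      rw [Option.map_some, ev_single_some, pb_apply, one_sub_C, dv_clC, map_zero]
      simp

/-- all elements `f ≠ ∞` in the support are split -/
def SplA (α : ZP (RatFunc K)) : Prop := ∀ f : RatFunc K, some f ∈ α.support → Spl f

/-- the divisor symbol vanishes -/
def SymZero (m : ℕ) (α : ZP (RatFunc K)) : Prop :=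
  ∀ Ψ : (K →₀ ℤ) →ₗ[ℤ] (K →₀ ℤ) →ₗ[ℤ] ML K m ℚ, (∀ a, Ψ a a = 0) →
    α.sum (fun x n => n • dfun Ψ x) = 0

theorem functional_eq {m : ℕ} (μ : ZP (RatFunc K) →ₗ[ℤ] ℚ) (α : ZP (RatFunc K)) (hα : SplA α)
    (h1 : ∀ β ∈ AK m (RatFunc K), μ β = 0)
    (h2 : ∀ y : P1 K, μ (Finsupp.single (y.map (RatFunc.C : K →+* RatFunc K)) 1) = 0)
    (h3 : SymZero m α) : μ α = 0 := by
  obtain ⟨Ψ, hΨ, hΨ'⟩ := G_all m ℚ μ h1 h2
  rw [← h3 Ψ hΨ]
  conv_lhs => rw [← Finsupp.sum_single α]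
  rw [Finsupp.sum, map_sum, Finsupp.sum]
  refine Finset.sum_congr rfl fun x hx => ?_
  have e1 : (Finsupp.single x (α x) : ZP (RatFunc K)) = (α x) • Finsupp.single x 1 := by simp
  rw [e1, map_zsmul]
  congr 1
  cases x with
  | none => exact h2 none
  | some f => exact hΨ' f (hα f hx)

theorem crit_const (m : ℕ) (α : ZP (RatFunc K)) (hα : SplA α) (h : SymZero m α) :
    ∃ N : ℕ, 0 < N ∧ N • (α - rmM (RatFunc.C : K →+* RatFunc K) (specZ K 0 α)) ∈
      R (m + 2) (RatFunc K) := by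
  by_contra hcon
  push Not at hcon
  obtain ⟨θ, hθ, hθ1⟩ := exists_functional (R (m + 2) (RatFunc K)) _ hcon
  set cm : ZP (RatFunc K) →ₗ[ℤ] ZP (RatFunc K) :=
    (rmM (RatFunc.C : K →+* RatFunc K)) ∘ₗ (specZ K 0) with hcm
  have h1 := functional_eq (m := m) (θ - θ ∘ₗ cm) α hα
    (fun β hβ => by
      rw [LinearMap.sub_apply, LinearMap.comp_apply, ← map_sub]
      exact hθ _ (const_AK K m β hβ))
    (fun y => by
      rw [LinearMap.sub_apply, LinearMap.comp_apply]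
      have e1 : cm (Finsupp.single (y.map (RatFunc.C : K →+* RatFunc K)) 1) =
          Finsupp.single (y.map (RatFunc.C : K →+* RatFunc K)) 1 := by
        rw [hcm, LinearMap.comp_apply, specZ, Finsupp.lmapDomain_apply, Finsupp.mapDomain_single,
          rmM_single, spec_C]
      rw [e1, sub_self]) h
  rw [LinearMap.sub_apply, LinearMap.comp_apply, ← map_sub] at h1
  have h2 : θ (α - cm α) = 1 := hθ1
  rw [h1] at h2
  exact zero_ne_one h2

theorem crit_values (m : ℕ) (α : ZP (RatFunc K)) (hα : SplA α) (h : SymZero m α) (a : K) :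
    ∃ N : ℕ, 0 < N ∧ N • (specZ K 0 α - specZ K a α) ∈ R (m + 2) K := by
  by_contra hcon
  push Not at hcon
  obtain ⟨θ, hθ, hθ1⟩ := exists_functional (R (m + 2) K) _ hcon
  have h1 := functional_eq (m := m) (θ ∘ₗ (specZ K 0 - specZ K a)) α hα
    (fun β hβ => by
      rw [LinearMap.comp_apply, LinearMap.sub_apply]
      exact hθ _ (path_AK m a β hβ))
    (fun y => by
      rw [LinearMap.comp_apply, LinearMap.sub_apply, specZ, specZ, Finsupp.lmapDomain_apply,
        Finsupp.lmapDomain_apply, Finsupp.mapDomain_single, Finsupp.mapDomain_single, spec_C,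
        spec_C, sub_self, map_zero]) h
  rw [LinearMap.comp_apply, LinearMap.sub_apply] at h1
  rw [h1] at hθ1
  exact zero_ne_one hθ1

theorem symZero_of (m : ℕ) (α : ZP (RatFunc K)) (v : ZP K) (N : ℕ) (hN : 0 < N)
    (h : N • α - rmM (RatFunc.C : K →+* RatFunc K) v ∈ R (m + 2) (RatFunc K)) :
    SymZero m α := by
  intro Ψ hΨ
  have h1 := ev_R (pb Ψ) (pb_alt Ψ hΨ) _ h
  rw [map_sub, ev_pb_const, sub_zero, map_nsmul, ev_pb] at h1
  rcases smul_eq_zero.1 h1 with h2 | h2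
  · omega
  · exact h2

end Pool.Agent.V8H63.GD
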