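import Pool.Agent.TH358.GP.Cls
import Pool.Agent.H39R2.Gon.C2

set_option autoImplicit false

/-!
# Divisors of rational functions on the affine line, and the decomposition
`f = (leading coefficient at 0) * ∏ (normalized linear factors)`
-/

namespace Pool.Agent.V8H63.GD

open scoped TensorProduct
open Polynomial H39Gon H39Gon.C4 H39Gon.TC2 Pool.Agent.TH358.GP

variable {K : Type} [Field K]

/-- the divisor of the zeros of a polynomial: `∑_{a ∈ K} (multiplicity of a) [a]` -/
noncomputable def pdv (p : K[X]) : K →₀ ℤ := (p.roots.map (fun a => Finsupp.single a (1 : ℤ))).sum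

theorem pdv_zero : pdv (0 : K[X]) = 0 := by simp [pdv]

theorem pdv_one : pdv (1 : K[X]) = 0 := by simp [pdv]

theorem pdv_C (c : K) : pdv (C c) = 0 := by simp [pdv]

theorem pdv_X_sub_C (a : K) : pdv (X - C a) = Finsupp.single a 1 := by simp [pdv]

theorem pdv_mul {p q : K[X]} (hp : p ≠ 0) (hq : q ≠ 0) : pdv (p * q) = pdv p + pdv q := by
  simp [pdv, roots_mul (mul_ne_zero hp hq)]

theorem pdv_apply (p : K[X]) (a : K) (h : p.eval a ≠ 0) : pdv p a = 0 := by
  have key : ∀ s : Multiset K, a ∉ s →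
      (s.map (fun a => Finsupp.single a (1 : ℤ))).sum a = 0 := by
    intro s
    induction s using Multiset.induction_on with
    | empty => intro _; simp
    | cons b s ih =>
      intro hs
      rw [Multiset.mem_cons, not_or] at hs
      rw [Multiset.map_cons, Multiset.sum_cons, Finsupp.add_apply, ih hs.2,
        Finsupp.single_eq_of_ne hs.1, add_zero]
  apply key
  intro ha
  exact h (isRoot_of_mem_roots ha)

/-- the divisor of a rational function on the affine line: `∑_{a ∈ K} ord_a(f) [a]`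
(`0` for `f = 0`) -/
noncomputable def rdv (f : RatFunc K) : K →₀ ℤ := pdv f.num - pdv f.denom

theorem rdv_zero : rdv (0 : RatFunc K) = 0 := by
  simp [rdv, pdv_zero, pdv_one]

theorem rdv_C (c : K) : rdv (RatFunc.C c) = 0 := by
  simp [rdv, pdv_C, pdv_one]

theorem rdv_mul {f g : RatFunc K} (hf : f ≠ 0) (hg : g ≠ 0) : rdv (f * g) = rdv f + rdv g := by
  have h := RatFunc.num_denom_mul f g
  have h1 : (f * g).num ≠ 0 := RatFunc.num_ne_zero (mul_ne_zero hf hg)
  have h2 := RatFunc.num_ne_zero hf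
  have h3 := RatFunc.num_ne_zero hg
  have h4 := f.denom_ne_zero
  have h5 := g.denom_ne_zero
  have h6 := (f * g).denom_ne_zero
  have e := congrArg pdv h
  rw [pdv_mul h1 (mul_ne_zero h4 h5), pdv_mul h4 h5, pdv_mul (mul_ne_zero h2 h3) h6,
    pdv_mul h2 h3] at e
  unfold rdv
  have e2 : pdv (f * g).num = (pdv f.num + pdv g.num + pdv (f * g).denom) -
    (pdv f.denom + pdv g.denom) := by rw [← e]; abel
  rw [e2]
  abel

theorem rdv_algebraMap (p : K[X]) : rdv (algebraMap K[X] (RatFunc K) p) = pdv p := by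
  simp [rdv, pdv_one]

/-- the divisor as a linear map on `K(x)^*`, written additively -/
noncomputable def dv : UV (RatFunc K) →ₗ[ℤ] (K →₀ ℤ) :=
  (AddMonoidHom.mk' (fun u : UV (RatFunc K) => rdv ((u.toMul : (RatFunc K)ˣ) : RatFunc K)) (by
    intro u v
    rw [toMul_add, Units.val_mul, rdv_mul (Units.ne_zero _) (Units.ne_zero _)])).toIntLinearMap

theorem dv_cl (f : RatFunc K) : dv (cl f) = rdv f := by
  by_cases h : f = 0
  · subst h
    rw [cl_zero, map_zero, rdv_zero]
  · rw [cl_of_ne h]
    rfl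

theorem dv_C (u : UV K) : dv (rmU (RatFunc.C : K →+* RatFunc K) u) = 0 := by
  obtain ⟨x, hx, rfl⟩ : ∃ x : K, x ≠ 0 ∧ u = cl x :=
    ⟨(u.toMul : K), u.toMul.ne_zero, by
      rw [cl_of_ne u.toMul.ne_zero, Units.mk0_val]
      rfl⟩
  rw [rmU_cl, dv_cl, rdv_C]

/-! ### the leading coefficients -/

theorem lc0_C (a c : K) : lc0 a (RatFunc.C c) = c := by
  rw [lc0_apply, RatFunc.num_C, RatFunc.denom_C]
  have h1 : tcHom a (1 : K[X]) = 1 := map_one _
  rw [h1, div_one]
  by_cases hc : c = 0
  · subst hc; simp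
  · rw [tcHom_of_eval a (by simpa using hc)]
    simp

theorem LC_C (a : K) (u : UV K) : LC a (rmU (RatFunc.C : K →+* RatFunc K) u) = u := by
  obtain ⟨x, hx, rfl⟩ : ∃ x : K, x ≠ 0 ∧ u = cl x :=
    ⟨(u.toMul : K), u.toMul.ne_zero, by
      rw [cl_of_ne u.toMul.ne_zero, Units.mk0_val]
      rfl⟩
  rw [rmU_cl, LC_cl, lc0_C]

/-- `x - a` -/
noncomputable def xa (a : K) : RatFunc K := algebraMap K[X] (RatFunc K) (X - C a)

theorem xa_ne_zero (a : K) : xa a ≠ 0 :=
  RatFunc.algebraMap_ne_zero (X_sub_C_ne_zero a)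

/-- the normalized linear factors: the class of `x - a`, divided by its leading coefficient
at `0` -/
noncomputable def eA (a : K) : UV (RatFunc K) :=
  cl (xa a) - rmU (RatFunc.C : K →+* RatFunc K) (LC 0 (cl (xa a)))

/-- `∑ n_a [a] ↦ ∏ e_a^{n_a}` -/
noncomputable def E : (K →₀ ℤ) →ₗ[ℤ] UV (RatFunc K) := Finsupp.linearCombination ℤ eA

theorem E_single (a : K) (n : ℤ) : E (Finsupp.single a n) = n • eA a := by
  unfold E
  rw [Finsupp.linearCombination_single]

theorem dv_xa (a : K) : dv (cl (xa a)) = Finsupp.single a 1 := by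
  rw [dv_cl, xa, rdv_algebraMap, pdv_X_sub_C]

/-- the defect of the decomposition -/
noncomputable def dec : UV (RatFunc K) →ₗ[ℤ] UV (RatFunc K) :=
  LinearMap.id - (rmU (RatFunc.C : K →+* RatFunc K)) ∘ₗ (LC 0) - E ∘ₗ dv

theorem dec_apply (u : UV (RatFunc K)) :
    dec u = u - rmU (RatFunc.C : K →+* RatFunc K) (LC 0 u) - E (dv u) := rfl

theorem eq_of_dec {u : UV (RatFunc K)} (h : dec u = 0) :
    u = rmU (RatFunc.C : K →+* RatFunc K) (LC 0 u) + E (dv u) := by
  rw [dec_apply, sub_sub, sub_eq_zero] at h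
  exact h

theorem dec_C (c : K) : dec (cl (RatFunc.C c)) = 0 := by
  rw [← rmU_cl, dec_apply, LC_C, dv_C, map_zero, sub_zero, sub_self]

theorem dec_xa (a : K) : dec (cl (xa a)) = 0 := by
  rw [dec_apply, dv_xa, E_single, one_smul, eA, sub_self]

theorem dec_poly (p : K[X]) (hp : p.Splits) : dec (cl (algebraMap K[X] (RatFunc K) p)) = 0 := by
  by_cases h0 : p = 0
  · subst h0
    rw [map_zero, cl_zero, map_zero]
  rw [hp.eq_prod_roots]
  have h1 : ∀ s : Multiset K, algebraMap K[X] (RatFunc K) ((s.map (fun a => X - C a)).prod) ≠ 0 ∧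
      dec (cl (algebraMap K[X] (RatFunc K) ((s.map (fun a => X - C a)).prod))) = 0 := by
    intro s
    induction s using Multiset.induction_on with
    | empty =>
      refine ⟨by simp, ?_⟩
      rw [Multiset.map_zero, Multiset.prod_zero, map_one, cl_one, map_zero]
    | cons b s ih =>
      rw [Multiset.map_cons, Multiset.prod_cons, map_mul]
      refine ⟨mul_ne_zero (xa_ne_zero b) ih.1, ?_⟩
      rw [show algebraMap K[X] (RatFunc K) (X - C b) = xa b from rfl,
        cl_mul (xa_ne_zero b) ih.1, map_add, ih.2, add_zero]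
      exact dec_xa b
  obtain ⟨h2, h3⟩ := h1 p.roots
  have h4 : algebraMap K[X] (RatFunc K) (C p.leadingCoeff) = RatFunc.C p.leadingCoeff :=
    RatFunc.algebraMap_C _
  rw [map_mul, h4, cl_mul (by simpa using h0) h2, map_add, h3, dec_C, add_zero]

/-- `f` and `1 - f` are products of linear factors and constants, up to inverses -/
def Spl (f : RatFunc K) : Prop := f.num.Splits ∧ f.denom.Splits ∧ (f.denom - f.num).Splits

theorem spl_dec {f : RatFunc K} (h : Spl f) : dec (cl f) = 0 := by
  by_cases hf : f = 0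
  · subst hf; rw [cl_zero, map_zero]
  have hn : algebraMap K[X] (RatFunc K) f.num ≠ 0 :=
    RatFunc.algebraMap_ne_zero (RatFunc.num_ne_zero hf)
  have hd : algebraMap K[X] (RatFunc K) f.denom ≠ 0 := RatFunc.algebraMap_ne_zero f.denom_ne_zero
  have h2 : cl f = cl (algebraMap K[X] (RatFunc K) f.num) -
      cl (algebraMap K[X] (RatFunc K) f.denom) := by
    rw [eq_sub_iff_add_eq, ← cl_mul hf hd]
    congr 1
    have h3 : f * algebraMap K[X] (RatFunc K) f.denom = algebraMap K[X] (RatFunc K) f.num := by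
      have h4 := f.num_div_denom
      rw [div_eq_iff hd] at h4
      exact h4.symm
    exact h3
  rw [h2, map_sub, dec_poly _ h.1, dec_poly _ h.2.1, sub_zero]

theorem spl_dec' {f : RatFunc K} (h : Spl f) : dec (cl (1 - f)) = 0 := by
  by_cases hf : 1 - f = 0
  · rw [hf, cl_zero, map_zero]
  have hd : algebraMap K[X] (RatFunc K) f.denom ≠ 0 := RatFunc.algebraMap_ne_zero f.denom_ne_zero
  have h1 : (1 - f) * algebraMap K[X] (RatFunc K) f.denom =
      algebraMap K[X] (RatFunc K) (f.denom - f.num) := by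
    rw [one_sub_eq, div_mul_cancel₀ _ hd]
  have h2 : cl (1 - f) = cl (algebraMap K[X] (RatFunc K) (f.denom - f.num)) -
      cl (algebraMap K[X] (RatFunc K) f.denom) := by
    rw [eq_sub_iff_add_eq, ← cl_mul hf hd, h1]
  rw [h2, map_sub, dec_poly _ h.2.2, dec_poly _ h.2.1, sub_zero]

theorem spl_of_isAlgClosed [IsAlgClosed K] (f : RatFunc K) : Spl f :=
  ⟨IsAlgClosed.splits _, IsAlgClosed.splits _, IsAlgClosed.splits _⟩

/-- leading coefficients at `a` and at `0` -/
theorem LC_dec (a : K) {u : UV (RatFunc K)} (h : dec u = 0) :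
    LC 0 u = LC a u - LC a (E (dv u)) := by
  have h1 := congrArg (LC a) (eq_of_dec h)
  rw [map_add, LC_C] at h1
  rw [eq_sub_iff_add_eq]
  exact h1.symm

/-! ### values and orders -/

theorem rdv_apply_eq_zero (f : RatFunc K) (a : K) (hn : f.num.eval a ≠ 0)
    (hd : f.denom.eval a ≠ 0) : rdv f a = 0 := by
  rw [rdv, Finsupp.sub_apply, pdv_apply _ _ hn, pdv_apply _ _ hd, sub_zero]

/-- where the order is not zero the value is `0` or `∞` -/
theorem spec_of_rdv (f : RatFunc K) (a : K) (h : rdv f a ≠ 0) :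
    spec K a (some f) = none ∨ spec K a (some f) = some 0 := by
  classical
  by_cases hd : f.denom.eval a = 0
  · left; simp [spec, hd]
  · by_cases hn : f.num.eval a = 0
    · right; simp [spec, hn, hd]
    · exact absurd (rdv_apply_eq_zero f a hn hd) h

theorem spec_lc (f : RatFunc K) (a y : K) (hy : y ≠ 0) (h : spec K a (some f) = some y) :
    lc0 a f = y := by
  classical
  by_cases hd : f.denom.eval a = 0
  · simp [spec, hd] at h
  · have h1 : f.num.eval a / f.denom.eval a = y := by simpa [spec, hd] using h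
    have hn : f.num.eval a ≠ 0 := by
      intro hn
      rw [hn, zero_div] at h1
      exact hy h1.symm
    rw [lc0_apply, tcHom_of_eval a hn, tcHom_of_eval a hd, h1]

theorem map_zero_of_two {W : Type} [AddCommGroup W] [Module ℚ W] (l : UV K →ₗ[ℤ] W) :
    l (cl (-1 : K)) = 0 := by
  apply two_torsion
  rw [← map_add, ← cl_mul (neg_ne_zero.2 one_ne_zero) (neg_ne_zero.2 one_ne_zero), neg_mul_neg,
    one_mul, cl_one, map_zero]

/-- the tame symbol of `(1 - f, f)` is torsion -/
theorem tame {W : Type} [AddCommGroup W] [Module ℚ W] (l : UV K →ₗ[ℤ] W) (f : RatFunc K) (a : K) :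
    (rdv f a) • l (LC a (cl (1 - f))) = (rdv (1 - f) a) • l (LC a (cl f)) := by
  classical
  have h1f : rdv (1 - f) = pdv (f.denom - f.num) - pdv f.denom := by
    by_cases h : 1 - f = 0
    · have h2 : f.denom - f.num = 0 := by
        have h3 : f = 1 := (sub_eq_zero.1 h).symm
        subst h3
        simp
      rw [h, rdv_zero, h2, pdv_zero]
      have h3 : f = 1 := (sub_eq_zero.1 h).symm
      subst h3
      simp [pdv_one]
    · have hd : algebraMap K[X] (RatFunc K) f.denom ≠ 0 :=
        RatFunc.algebraMap_ne_zero f.denom_ne_zero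
      have h2 : (1 - f) * algebraMap K[X] (RatFunc K) f.denom =
          algebraMap K[X] (RatFunc K) (f.denom - f.num) := by
        rw [one_sub_eq, div_mul_cancel₀ _ hd]
      have h3 := rdv_mul h hd
      rw [h2, rdv_algebraMap, rdv_algebraMap] at h3
      rw [h3]; abel
  by_cases hd : f.denom.eval a = 0
  · -- pole
    have hn := eval_ne_of_coprime f a hd
    have hn' : (f.denom - f.num).eval a ≠ 0 := by
      rw [eval_sub, hd, zero_sub]; exact neg_ne_zero.2 hn
    have e1 : rdv f a = - pdv f.denom a := by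
      rw [rdv, Finsupp.sub_apply, pdv_apply _ _ hn, zero_sub]
    have e2 : rdv (1 - f) a = - pdv f.denom a := by
      rw [h1f, Finsupp.sub_apply, pdv_apply _ _ hn', zero_sub]
    have hdt : tcHom a f.denom ≠ 0 := tcHom_ne_zero a (RatFunc.denom_ne_zero f)
    have h1 : lc0 a (1 - f) = (-1) * lc0 a f := by
      rw [one_sub_eq, lc0_div, lc0_apply, tcHom_of_eval a hn', tcHom_of_eval a hn, eval_sub, hd]
      ring
    have h2 : lc0 a f ≠ 0 := by
      rw [lc0_apply, tcHom_of_eval a hn]
      exact div_ne_zero hn hdt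
    rw [e1, e2, LC_cl, LC_cl, h1, cl_mul (neg_ne_zero.2 one_ne_zero) h2, map_add, map_zero_of_two,
      zero_add]
  · by_cases hn : f.num.eval a = 0
    · -- zero
      have hn' : (f.denom - f.num).eval a ≠ 0 := by
        rw [eval_sub, hn, sub_zero]; exact hd
      have h1 : lc0 a (1 - f) = 1 := by
        rw [one_sub_eq, lc0_div, tcHom_of_eval a hn', tcHom_of_eval a hd, eval_sub, hn, sub_zero,
          div_self hd]
      have e2 : rdv (1 - f) a = 0 := by
        rw [h1f, Finsupp.sub_apply, pdv_apply _ _ hn', pdv_apply _ _ hd, sub_zero]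
      rw [e2, LC_cl, h1, cl_one, map_zero, smul_zero, zero_smul]
    · rw [rdv_apply_eq_zero f a hn hd, zero_smul]
      by_cases he : f.denom.eval a - f.num.eval a = 0
      · have h1 : lc0 a f = 1 := by
          rw [lc0_apply, tcHom_of_eval a hn, tcHom_of_eval a hd, ← sub_eq_zero.1 he, div_self hd]
        rw [LC_cl, h1, cl_one, map_zero, smul_zero]
      · have hn' : (f.denom - f.num).eval a ≠ 0 := by rwa [eval_sub]
        rw [h1f, Finsupp.sub_apply, pdv_apply _ _ hn', pdv_apply _ _ hd, sub_zero, zero_smul]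

end Pool.Agent.V8H63.GD
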