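import Pool.Agent.V8H63.GD.Dv

set_option autoImplicit false

/-!
# Functionals on `ℤ[P^1_{K(x)}]` which kill the kernel of `δ_n` and the constants
-/

namespace Pool.Agent.V8H63.GD

open scoped TensorProduct
open Polynomial H39Gon H39Gon.C4 H39Gon.TC2 Pool.Agent.TH358.GP

/-- the kernel of `δ_{m+2}` -/
noncomputable def AK : ℕ → ∀ (F : Type) [Field F], Submodule ℤ (ZP F)
  | 0 => fun F _ => LinearMap.ker (delta2 F)
  | (m + 1) => fun F _ => LinearMap.ker (deltaS F (R (m + 2) F))

theorem R_eq (m : ℕ) (F : Type) [Field F] : R (m + 2) F = relSpan F (AK m (RatFunc F)) := by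
  cases m <;> rfl

theorem AK_map {F F' : Type} [Field F] [Field F'] (φ : F →+* F') (m : ℕ) (α : ZP F)
    (hα : α ∈ AK m F) : rmM φ α ∈ AK m F' := by
  cases m with
  | zero =>
    change α ∈ LinearMap.ker (delta2 F) at hα
    change rmM φ α ∈ LinearMap.ker (delta2 F')
    rw [LinearMap.mem_ker] at hα ⊢
    rw [rm_delta2, hα, map_zero]
  | succ m =>
    change α ∈ LinearMap.ker (deltaS F (R (m + 2) F)) at hα
    change rmM φ α ∈ LinearMap.ker (deltaS F' (R (m + 2) F'))
    rw [LinearMap.mem_ker] at hα ⊢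
    rw [rm_deltaS φ (R (m + 2) F) _ (fun s hs => R_map φ m s hs), hα, map_zero]

/-- elements of the kernel of `δ_n` are constant modulo `R_n` -/
theorem const_AK (K : Type) [Field K] (m : ℕ) (α : ZP (RatFunc K)) (hα : α ∈ AK m (RatFunc K)) :
    α - rmM (RatFunc.C : K →+* RatFunc K) (specZ K 0 α) ∈ R (m + 2) (RatFunc K) := by
  rw [R_eq]
  exact const_mod K _ α (AK_map (phi K) m α hα)

/-! ### the path from `0` to `a` -/

section path

variable {K : Type} [Field K]

/-- `f(x) ↦ f(a x)` on polynomials -/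
noncomputable def rh (a : K) : K[X] →+* K[X] := Polynomial.compRingHom (C a * X)

theorem rh_eval (a : K) (p : K[X]) (t : K) : (rh a p).eval t = p.eval (a * t) := by
  simp [rh, Polynomial.coe_compRingHom]

theorem rh_inj (a : K) (ha : a ≠ 0) : Function.Injective (rh a) := by
  rw [injective_iff_map_eq_zero]
  intro p hp
  have h1 : (p.comp (C a * X)).comp (C a⁻¹ * X) = p := by
    rw [comp_assoc]
    have : (C a * X).comp (C a⁻¹ * X) = (X : K[X]) := by
      rw [mul_comp, C_comp, X_comp, ← mul_assoc, ← C_mul, mul_inv_cancel₀ ha, C_1, one_mul]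
    rw [this, comp_X]
  have h2 : p.comp (C a * X) = 0 := hp
  rw [← h1, h2, zero_comp]

/-- `f(x) ↦ f(a x)` on rational functions -/
noncomputable def rhR (a : K) (ha : a ≠ 0) : RatFunc K →+* RatFunc K :=
  IsFractionRing.lift (A := K[X]) (K := RatFunc K)
    (g := (algebraMap K[X] (RatFunc K)).comp (rh a))
    ((RatFunc.algebraMap_injective K).comp (rh_inj a ha))

theorem rhR_eq (a : K) (ha : a ≠ 0) (f : RatFunc K) : rhR a ha f =
    algebraMap K[X] (RatFunc K) (rh a f.num) / algebraMap K[X] (RatFunc K) (rh a f.denom) := by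
  conv_lhs => rw [← f.num_div_denom]
  rw [map_div₀]
  unfold rhR
  rw [IsFractionRing.lift_algebraMap, IsFractionRing.lift_algebraMap]
  rfl

theorem spec_rhR (a : K) (ha : a ≠ 0) (t : K) (x : P1 (RatFunc K)) :
    spec K t (x.map (rhR a ha)) = spec K (a * t) x := by
  classical
  cases x with
  | none => rfl
  | some f =>
    rw [Option.map_some, rm_spec_eq t (rh a f.num) (rh a f.denom)
      ((map_ne_zero_iff _ (rh_inj a ha)).2 f.denom_ne_zero)
      (f.isCoprime_num_denom.map (rh a)) _ (rhR_eq a ha f), rh_eval, rh_eval]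
    simp only [spec]

theorem specZ_rhR (a : K) (ha : a ≠ 0) (t : K) (α : ZP (RatFunc K)) :
    specZ K t (rmM (rhR a ha) α) = specZ K (a * t) α := by
  induction α using Finsupp.induction_linear with
  | zero => simp
  | add a b ha hb => rw [map_add, map_add, ha, hb, map_add]
  | single x c =>
    rw [rmM_single, specZ, specZ, Finsupp.lmapDomain_apply, Finsupp.mapDomain_single,
      Finsupp.lmapDomain_apply, Finsupp.mapDomain_single, spec_rhR]

theorem path_AK (m : ℕ) (a : K) (α : ZP (RatFunc K)) (hα : α ∈ AK m (RatFunc K)) :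
    specZ K 0 α - specZ K a α ∈ R (m + 2) K := by
  by_cases ha : a = 0
  · subst ha
    rw [sub_self]
    exact Submodule.zero_mem _
  · rw [R_eq]
    have h := AK_map (rhR a ha) m α hα
    have h1 : specZ K 0 (rmM (rhR a ha) α) - specZ K 1 (rmM (rhR a ha) α) ∈
        relSpan K (AK m (RatFunc K)) := Submodule.subset_span (Or.inr ⟨_, h, rfl⟩)
    rwa [specZ_rhR, specZ_rhR, mul_zero, mul_one] at h1

end path

/-! ### the main statement -/

section main

/-- multilinear maps `D^m → W` for the group `D` of divisors on the affine line over `K` -/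
abbrev ML (K : Type) (m : ℕ) (W : Type) [AddCommGroup W] : Type :=
  MultilinearMap ℤ (fun _ : Fin m => (K →₀ ℤ)) W

/-- `(1 - f, f; f, ..., f) ↦ Ψ(div(1 - f), div f; div f, ..., div f)` -/
noncomputable def dform {K : Type} [Field K] {m : ℕ} {W : Type} [AddCommGroup W]
    (Ψ : (K →₀ ℤ) →ₗ[ℤ] (K →₀ ℤ) →ₗ[ℤ] ML K m W) (f : RatFunc K) : W :=
  Ψ (rdv (1 - f)) (rdv f) (fun _ => rdv f)

/-- a functional which kills the kernel of `δ_{m+2}` and the constants is given by the divisors -/
def G (K : Type) [Field K] (m : ℕ) : Prop :=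
  ∀ (W : Type) [AddCommGroup W] [Module ℚ W] (μ : ZP (RatFunc K) →ₗ[ℤ] W),
    (∀ α ∈ AK m (RatFunc K), μ α = 0) →
    (∀ y : P1 K, μ (Finsupp.single (y.map (RatFunc.C : K →+* RatFunc K)) 1) = 0) →
    ∃ Ψ : (K →₀ ℤ) →ₗ[ℤ] (K →₀ ℤ) →ₗ[ℤ] ML K m W, (∀ a, Ψ a a = 0) ∧
      ∀ f : RatFunc K, Spl f → μ (Finsupp.single (some f) 1) = dform Ψ f

variable {K : Type} [Field K]

theorem one_sub_C (y : K) : (1 : RatFunc K) - RatFunc.C y = RatFunc.C (1 - y) := by
  rw [map_sub, map_one]

/-- a functional which kills the kernel of `δ_2` is `ev Ψ` -/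
theorem exists_form2 {F W : Type} [Field F] [AddCommGroup W] [Module ℚ W] (θ : ZP F →ₗ[ℤ] W)
    (hker : ∀ α, delta2 F α = 0 → θ α = 0) :
    ∃ Ψ : UV F →ₗ[ℤ] UV F →ₗ[ℤ] MultilinearMap ℤ (fun _ : Fin 0 => UV F) W,
      (∀ a, Ψ a a = 0) ∧ θ = ev Ψ := by
  obtain ⟨L, hL⟩ := exists_ext _ θ hker
  set f : MultilinearMap ℤ (fun _ : Fin 2 => UV F) W :=
    (L.compAlternatingMap (exteriorPower.ιMulti ℤ 2)).toMultilinearMap with hf
  refine ⟨(multilinearCurryLeftEquiv ℤ (fun _ : Fin 1 => UV F) W).toLinearMap ∘ₗ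
    f.curryLeft, ?_, ?_⟩
  · intro a
    ext c
    change (L.compAlternatingMap (exteriorPower.ιMulti ℤ 2)) (Fin.cons a (Fin.cons a c)) = 0
    apply AlternatingMap.map_eq_zero_of_eq _ _ (i := 0) (j := 1)
    · rfl
    · simp
  · rw [hL]
    apply Finsupp.lhom_ext'
    intro x
    apply LinearMap.ext_ring
    simp only [LinearMap.comp_apply, Finsupp.lsingle_apply, delta2, ev,
      Finsupp.linearCombination_single, one_smul]
    cases x with
    | none => simp
    | some x =>
      change L (exteriorPower.ιMulti ℤ 2 ![cl (1 - x), cl x]) =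
        L (exteriorPower.ιMulti ℤ 2 (Fin.cons (cl (1 - x)) (Fin.cons (cl x) (fun _ => cl x))))
      congr 2

/-- evaluation of a multilinear map in no variables -/
noncomputable def ev0 (V W : Type) [AddCommGroup V] [AddCommGroup W] :
    MultilinearMap ℤ (fun _ : Fin 0 => V) W →ₗ[ℤ] W where
  toFun g := g Fin.elim0
  map_add' _ _ := rfl
  map_smul' _ _ := rfl

theorem alt_swap {V W : Type} [AddCommGroup V] [AddCommGroup W] (ω : V →ₗ[ℤ] V →ₗ[ℤ] W)
    (h : ∀ a, ω a a = 0) (a b : V) : ω a b = - ω b a := by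
  have h1 := h (a + b)
  simp only [map_add, LinearMap.add_apply] at h1
  rw [h a, h b, zero_add, add_zero] at h1
  exact eq_neg_of_add_eq_zero_right h1

theorem G_zero : G K 0 := by
  intro W _ _ μ hμ hc
  obtain ⟨Ψ, hΨ, hev⟩ := exists_form2 μ (fun α hα => hμ α (LinearMap.mem_ker.2 hα))
  set ω : UV (RatFunc K) →ₗ[ℤ] UV (RatFunc K) →ₗ[ℤ] W := Ψ.compr₂ (ev0 (UV (RatFunc K)) W) with hω
  have hωa : ∀ u v, ω u v = Ψ u v Fin.elim0 := fun u v => rfl
  have hω0 : ∀ a, ω a a = 0 := fun a => by rw [hωa, hΨ]; rfl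
  have hμf : ∀ f : RatFunc K, μ (Finsupp.single (some f) 1) = ω (cl (1 - f)) (cl f) := by
    intro f
    rw [hev, ev_single_some, one_smul, hωa]
    congr 1
    exact Subsingleton.elim _ _
  -- the constants
  set κ : UV K →ₗ[ℤ] UV (RatFunc K) := rmU (RatFunc.C : K →+* RatFunc K) with hκ
  have hcc : ∀ f : RatFunc K, ω (κ (LC 0 (cl (1 - f)))) (κ (LC 0 (cl f))) = 0 := by
    intro f
    set Ψ' := trans κ Ψ with hΨ'
    have h1 := ev_pull 0 Ψ' (fun a => by
      ext c
      rw [hΨ', trans_apply, hΨ]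
      rfl) (Finsupp.single (some f) 1)
    have h2 : ev (pull 0 Ψ') (Finsupp.single (some f) 1) =
        ω (κ (LC 0 (cl (1 - f)))) (κ (LC 0 (cl f))) := by
      rw [ev_single_some, one_smul, pull_apply, hΨ', trans_apply, hωa]
      congr 1
      exact Subsingleton.elim _ _
    rw [← h2, h1, specZ, Finsupp.lmapDomain_apply, Finsupp.mapDomain_single]
    cases hs : spec K 0 (some f) with
    | none => rw [ev_single_none]
    | some y =>
      rw [ev_single_some, one_smul, hΨ', trans_apply]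
      have h3 := hc (some y)
      rw [Option.map_some, hμf, one_sub_C, ← rmU_cl, ← rmU_cl, hωa] at h3
      rw [← h3]
      congr 1
      exact Subsingleton.elim _ _
  -- the mixed terms
  let lam : (K →₀ ℤ) →ₗ[ℤ] (UV K →ₗ[ℤ] W) := (ω.flip ∘ₗ E).compr₂ LinearMap.id |>.compl₂ κ
  have hlam : ∀ x c, lam x c = ω (κ c) (E x) := fun x c => rfl
  let T : (K →₀ ℤ) →ₗ[ℤ] (UV (RatFunc K) →ₗ[ℤ] W) :=
    Finsupp.linearCombination ℤ (fun a : K => (lam (Finsupp.single a 1)) ∘ₗ (LC a))
  let B : (K →₀ ℤ) →ₗ[ℤ] ((K →₀ ℤ) →ₗ[ℤ] W) :=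
    Finsupp.linearCombination ℤ (fun a : K => (lam (Finsupp.single a 1)) ∘ₗ (LC a) ∘ₗ E)
  have hTB : ∀ (x : K →₀ ℤ) (u : UV (RatFunc K)), dec u = 0 →
      lam x (LC 0 u) = T x u - B x (dv u) := by
    intro x u hu
    induction x using Finsupp.induction_linear with
    | zero => simp
    | add a b ha hb =>
      rw [map_add, map_add, map_add, LinearMap.add_apply, LinearMap.add_apply,
        LinearMap.add_apply, ha, hb]
      abel
    | single a n =>
      have h1 : lam (Finsupp.single a n) = n • lam (Finsupp.single a 1) := by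
        rw [← map_zsmul]
        congr 1
        simp
      have h2 : T (Finsupp.single a n) = n • ((lam (Finsupp.single a 1)) ∘ₗ (LC a)) :=
        Finsupp.linearCombination_single _ _ _
      have h3 : B (Finsupp.single a n) = n • ((lam (Finsupp.single a 1)) ∘ₗ (LC a) ∘ₗ E) :=
        Finsupp.linearCombination_single _ _ _
      rw [h1, h2, h3, LC_dec a hu]
      simp only [LinearMap.smul_apply, LinearMap.comp_apply, map_sub, smul_sub]
  have hT : ∀ f : RatFunc K, T (rdv f) (cl (1 - f)) = T (rdv (1 - f)) (cl f) := by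
    intro f
    classical
    have key : ∀ (x : K →₀ ℤ) (u : UV (RatFunc K)) (S : Finset K), x.support ⊆ S →
        T x u = ∑ a ∈ S, x a • lam (Finsupp.single a 1) (LC a u) := by
      intro x u S hS
      have h1 : T x = x.sum (fun a n => n • ((lam (Finsupp.single a 1)) ∘ₗ (LC a))) :=
        Finsupp.linearCombination_apply _ _
      rw [h1, Finsupp.sum_of_support_subset x hS _ (fun _ _ => by rw [zero_smul]),
        LinearMap.sum_apply]
      rfl
    rw [key _ _ ((rdv f).support ∪ (rdv (1 - f)).support) Finset.subset_union_left,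
      key _ _ ((rdv f).support ∪ (rdv (1 - f)).support) Finset.subset_union_right]
    exact Finset.sum_congr rfl fun a _ => tame _ f a
  -- the form
  let Ψ0 : (K →₀ ℤ) →ₗ[ℤ] (K →₀ ℤ) →ₗ[ℤ] W := (ω.compl₂ E) ∘ₗ E + B - B.flip
  have hΨ0 : ∀ x y, Ψ0 x y = ω (E x) (E y) + B x y - B y x := fun x y => rfl
  let cst : W →ₗ[ℤ] ML K 0 W :=
    { toFun := fun w => MultilinearMap.constOfIsEmpty ℤ _ w
      map_add' := fun _ _ => by ext; rfl
      map_smul' := fun _ _ => by ext; rfl }
  refine ⟨Ψ0.compr₂ cst, fun a => ?_, fun f hf => ?_⟩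
  · rw [LinearMap.compr₂_apply, hΨ0, hω0]
    simp
  · have hd1 : dv (cl (1 - f)) = rdv (1 - f) := dv_cl _
    have hd2 : dv (cl f) = rdv f := dv_cl _
    change μ (Finsupp.single (some f) 1) = Ψ0 (rdv (1 - f)) (rdv f)
    rw [hμf, hΨ0]
    have e1 := eq_of_dec (spl_dec' hf)
    have e2 := eq_of_dec (spl_dec hf)
    have e3 : ω (cl (1 - f)) (cl f) = ω (κ (LC 0 (cl (1 - f))) + E (rdv (1 - f)))
        (κ (LC 0 (cl f)) + E (rdv f)) := by
      rw [← hd1, ← hd2, ← e1, ← e2]
    rw [e3]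
    simp only [map_add, LinearMap.add_apply]
    rw [hcc f, alt_swap ω hω0 (E (rdv (1 - f))) (κ (LC 0 (cl f)))]
    have h1 := hTB (rdv f) (cl (1 - f)) (spl_dec' hf)
    have h2 := hTB (rdv (1 - f)) (cl f) (spl_dec hf)
    rw [hlam, hd1] at h1
    rw [hlam, hd2] at h2
    rw [h1, h2, hT]
    abel

end main

end Pool.Agent.V8H63.GD
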