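import Pool.Agent.V8H63.GD.Key

set_option autoImplicit false

/-!
# The induction step
-/

namespace Pool.Agent.V8H63.GD

open scoped TensorProduct
open Polynomial H39Gon H39Gon.C4 H39Gon.TC2 Pool.Agent.TH358.GP

variable {K : Type} [Field K]

theorem lin_sum {M : Type} [AddCommGroup M] (g : (K →₀ ℤ) →ₗ[ℤ] M) (x : K →₀ ℤ) :
    g x = x.sum (fun a n => n • g (Finsupp.single a 1)) := by
  induction x using Finsupp.induction_linear with
  | zero => simp
  | add a b ha hb =>
    rw [map_add, ha, hb, Finsupp.sum_add_index']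
    · intro a; rw [zero_smul]
    · intro a m n; rw [add_smul]
  | single a n =>
    rw [Finsupp.sum_single_index (by rw [zero_smul]), ← map_zsmul]
    congr 1
    simp

/-- constant multilinear maps in no variables -/
noncomputable def cst (V W : Type) [AddCommGroup V] [AddCommGroup W] :
    W →ₗ[ℤ] MultilinearMap ℤ (fun _ : Fin 0 => V) W where
  toFun w := MultilinearMap.constOfIsEmpty ℤ _ w
  map_add' _ _ := by ext; rfl
  map_smul' _ _ := by ext; rfl

theorem cst_apply (V W : Type) [AddCommGroup V] [AddCommGroup W] (w : W) (v : Fin 0 → V) :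
    cst V W w v = w := rfl

/-- the constants in the group of units -/
noncomputable abbrev kap (K : Type) [Field K] : UV K →ₗ[ℤ] UV (RatFunc K) :=
  rmU (RatFunc.C : K →+* RatFunc K)

theorem dv_clC (y : K) : dv (cl (RatFunc.C y)) = 0 := by rw [dv_cl, rdv_C]

theorem T4_zero (hG : G K 0) (W : Type) [AddCommGroup W] [Module ℚ W]
    (Ψ1 : (K →₀ ℤ) →ₗ[ℤ] (K →₀ ℤ) →ₗ[ℤ] ML K 0 (UV (RatFunc K) →ₗ[ℤ] W))
    (h1 : ∀ a, Ψ1 a a = 0) :
    ∃ Ψ4 : K → ((K →₀ ℤ) →ₗ[ℤ] (K →₀ ℤ) →ₗ[ℤ] ML K 0 W), (∀ a x, Ψ4 a x x = 0) ∧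
      ∀ f : RatFunc K, Spl f → dform Ψ1 f (kap K (LC 0 (cl f))) =
        (rdv f).sum (fun a n => n • dform (Ψ4 a) f) := by
  -- the bilinear forms
  let b : K → (UV (RatFunc K) →ₗ[ℤ] UV (RatFunc K) →ₗ[ℤ] W) := fun a =>
    LinearMap.mk₂ ℤ (fun u v => (Ψ1 (dv u) (Finsupp.single a 1)) Fin.elim0 (kap K (LC 0 v)))
      (by intro u u' v; simp only [map_add, LinearMap.add_apply, add_apply])
      (by intro c u v; simp only [map_zsmul, LinearMap.smul_apply, smul_apply])
      (by intro u v v'; simp only [map_add])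
      (by intro c u v; simp only [map_zsmul])
  have hb : ∀ a u v, b a u v =
    (Ψ1 (dv u) (Finsupp.single a 1)) Fin.elim0 (kap K (LC 0 v)) := fun a u v => rfl
  let N : K → (UV (RatFunc K) →ₗ[ℤ] UV (RatFunc K) →ₗ[ℤ]
      MultilinearMap ℤ (fun _ : Fin 0 => UV (RatFunc K)) W) := fun a =>
    (b a - (b a).flip).compr₂ (cst (UV (RatFunc K)) W)
  have hN : ∀ a u v w, N a u v w = b a u v - b a v u := fun a u v w => rfl
  have hN0 : ∀ a u, N a u u = 0 := by
    intro a u
    ext w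
    rw [hN, sub_self]
    rfl
  have hb0 : ∀ a y u, b a (cl (RatFunc.C y)) u = 0 := by
    intro a y u
    rw [hb, dv_clC, map_zero]
    rfl
  have h2 : ∀ a, ∃ Ψ : (K →₀ ℤ) →ₗ[ℤ] (K →₀ ℤ) →ₗ[ℤ] ML K 0 W, (∀ x, Ψ x x = 0) ∧
      ∀ f : RatFunc K, Spl f → ev (N a) (Finsupp.single (some f) 1) = dform Ψ f := by
    intro a
    refine hG W (ev (N a)) (fun α hα => ev_ker_delta2 (N a) (hN0 a) α hα) (fun y => ?_)
    cases y with
    | none => rw [Option.map_none, ev_single_none]
    | some y =>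
      rw [Option.map_some, ev_single_some, one_smul, hN, one_sub_C, hb0, hb0, sub_self]
  choose Ψ4 h3 h4 using h2
  refine ⟨Ψ4, h3, fun f hf => ?_⟩
  have e1 : ∀ a, dform (Ψ4 a) f = b a (cl (1 - f)) (cl f) - b a (cl f) (cl (1 - f)) := by
    intro a
    rw [← h4 a f hf, ev_single_some, one_smul, hN]
  simp only [e1, smul_sub]
  rw [Finsupp.sum_sub]
  -- the two sums
  have e2 : ∀ (x : K →₀ ℤ) (w : UV (RatFunc K)), (rdv f).sum (fun a n =>
      n • (Ψ1 x (Finsupp.single a 1)) Fin.elim0 w) = (Ψ1 x (rdv f)) Fin.elim0 w := by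
    intro x w
    let g : (K →₀ ℤ) →ₗ[ℤ] W :=
      { toFun := fun z => (Ψ1 x z) Fin.elim0 w
        map_add' := fun z z' => by simp only [map_add, add_apply,
          LinearMap.add_apply]
        map_smul' := fun n z => by simp only [map_zsmul, smul_apply,
          LinearMap.smul_apply, RingHom.id_apply, smul_eq_mul, eq_intCast, Int.cast_id] }
    exact (lin_sum g (rdv f)).symm
  have e3 : (rdv f).sum (fun a n => n • b a (cl (1 - f)) (cl f)) =
      dform Ψ1 f (kap K (LC 0 (cl f))) := by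
    simp only [hb, dv_cl]
    rw [e2]
    unfold dform
    congr 2
    exact Subsingleton.elim _ _
  have e4 : (rdv f).sum (fun a n => n • b a (cl f) (cl (1 - f))) = 0 := by
    simp only [hb, dv_cl]
    rw [e2, h1]
    rfl
  rw [e3, e4, sub_zero]

theorem T4_succ (m : ℕ) (hG : G K (m + 1)) (W : Type) [AddCommGroup W] [Module ℚ W]
    (Ψ1 : (K →₀ ℤ) →ₗ[ℤ] (K →₀ ℤ) →ₗ[ℤ] ML K (m + 1) (UV (RatFunc K) →ₗ[ℤ] W))
    (h1 : ∀ a, Ψ1 a a = 0) :
    ∃ Ψ4 : K → ((K →₀ ℤ) →ₗ[ℤ] (K →₀ ℤ) →ₗ[ℤ] ML K (m + 1) W), (∀ a x, Ψ4 a x x = 0) ∧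
      ∀ f : RatFunc K, Spl f → dform Ψ1 f (kap K (LC 0 (cl f))) =
        (rdv f).sum (fun a n => n • dform (Ψ4 a) f) := by
  -- the first of the last variables is fixed
  let g : K → (K →₀ ℤ) → (K →₀ ℤ) → ML K m (UV (RatFunc K) →ₗ[ℤ] W) := fun a x y =>
    (Ψ1 x y).curryLeft (Finsupp.single a 1)
  have hg : ∀ a x y z, g a x y z = Ψ1 x y (Fin.cons (Finsupp.single a 1) z) := fun a x y z => rfl
  let N : K → (UV (RatFunc K) →ₗ[ℤ] UV (RatFunc K) →ₗ[ℤ]
      MultilinearMap ℤ (fun _ : Fin (m + 1) => UV (RatFunc K)) W) := fun a =>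
    LinearMap.mk₂ ℤ (fun u v => (multilinearCurryRightEquiv ℤ
      (fun _ : Fin (m + 1) => UV (RatFunc K)) W).symm
      ((LinearMap.lcomp ℤ W ((kap K) ∘ₗ (LC 0 : UV (RatFunc K) →ₗ[ℤ] UV K))).compMultilinearMap
        ((g a (dv u) (dv v)).compLinearMap (fun _ => (dv : UV (RatFunc K) →ₗ[ℤ] (K →₀ ℤ))))))
      (by
        intro u u' v
        ext w
        change g a (dv (u + u')) (dv v) _ _ = g a (dv u) (dv v) _ _ + g a (dv u') (dv v) _ _
        simp only [hg, map_add, LinearMap.add_apply, add_apply])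
      (by
        intro c u v
        ext w
        change g a (dv (c • u)) (dv v) _ _ = c • g a (dv u) (dv v) _ _
        simp only [hg, map_zsmul, LinearMap.smul_apply, smul_apply])
      (by
        intro u v v'
        ext w
        change g a (dv u) (dv (v + v')) _ _ = g a (dv u) (dv v) _ _ + g a (dv u) (dv v') _ _
        simp only [hg, map_add, LinearMap.add_apply, add_apply])
      (by
        intro c u v
        ext w
        change g a (dv u) (dv (c • v)) _ _ = c • g a (dv u) (dv v) _ _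
        simp only [hg, map_zsmul, LinearMap.smul_apply, smul_apply])
  have hN : ∀ a u v w, N a u v w = Ψ1 (dv u) (dv v) (Fin.cons (Finsupp.single a 1)
      (fun i => dv (w i.castSucc))) (kap K (LC 0 (w (Fin.last m)))) := fun a u v w => rfl
  have hN0 : ∀ a u, N a u u = 0 := by
    intro a u
    ext w
    rw [hN, h1]
    rfl
  have h2 : ∀ a, ∃ Ψ : (K →₀ ℤ) →ₗ[ℤ] (K →₀ ℤ) →ₗ[ℤ] ML K (m + 1) W, (∀ x, Ψ x x = 0) ∧
      ∀ f : RatFunc K, Spl f → ev (N a) (Finsupp.single (some f) 1) = dform Ψ f := by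
    intro a
    refine hG W (ev (N a)) (fun α hα => ?_) (fun y => ?_)
    · refine ev_ker_deltaS (N a) (R (m + 2) (RatFunc K)) (fun s hs => ev_R (cur (N a))
        (fun u => ?_) s hs) α hα
      ext c v
      rw [cur_apply, hN0]
      rfl
    · cases y with
      | none => rw [Option.map_none, ev_single_none]
      | some y =>
        rw [Option.map_some, ev_single_some, one_smul, hN, one_sub_C, dv_clC, map_zero]
        rfl
  choose Ψ4 h3 h4 using h2
  refine ⟨Ψ4, h3, fun f hf => ?_⟩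
  have e1 : ∀ a, dform (Ψ4 a) f = Ψ1 (rdv (1 - f)) (rdv f) (Fin.cons (Finsupp.single a 1)
      (fun _ => rdv f)) (kap K (LC 0 (cl f))) := by
    intro a
    rw [← h4 a f hf, ev_single_some, one_smul, hN, dv_cl, dv_cl]
  simp only [e1]
  let g' : (K →₀ ℤ) →ₗ[ℤ] W :=
    { toFun := fun z => (Ψ1 (rdv (1 - f)) (rdv f)).curryLeft z (fun _ => rdv f)
        (kap K (LC 0 (cl f)))
      map_add' := fun z z' => by
        rw [map_add, add_apply, LinearMap.add_apply]
      map_smul' := fun n z => by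
        rw [map_smul, smul_apply, LinearMap.smul_apply, RingHom.id_apply] }
  have e5 := lin_sum g' (rdv f)
  refine Eq.trans ?_ e5
  change Ψ1 (rdv (1 - f)) (rdv f) (fun _ => rdv f) (kap K (LC 0 (cl f))) =
    Ψ1 (rdv (1 - f)) (rdv f) (Fin.cons (rdv f) (fun _ => rdv f)) (kap K (LC 0 (cl f)))
  congr 2
  funext i
  refine Fin.cases ?_ (fun i => ?_) i <;> rfl

theorem T4 (m : ℕ) (hG : G K m) (W : Type) [AddCommGroup W] [Module ℚ W]
    (Ψ1 : (K →₀ ℤ) →ₗ[ℤ] (K →₀ ℤ) →ₗ[ℤ] ML K m (UV (RatFunc K) →ₗ[ℤ] W))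
    (h1 : ∀ a, Ψ1 a a = 0) :
    ∃ Ψ4 : K → ((K →₀ ℤ) →ₗ[ℤ] (K →₀ ℤ) →ₗ[ℤ] ML K m W), (∀ a x, Ψ4 a x x = 0) ∧
      ∀ f : RatFunc K, Spl f → dform Ψ1 f (kap K (LC 0 (cl f))) =
        (rdv f).sum (fun a n => n • dform (Ψ4 a) f) := by
  cases m with
  | zero => exact T4_zero hG W Ψ1 h1
  | succ m => exact T4_succ m hG W Ψ1 h1

/-- `(x, y; z_0, z_1, ...) ↦ ∑_a (z_0)_a Ψ_a(x, y; z_1, ...)` -/
noncomputable def sumForm {m : ℕ} {W : Type} [AddCommGroup W]
    (Ψs : K → ((K →₀ ℤ) →ₗ[ℤ] (K →₀ ℤ) →ₗ[ℤ] ML K m W)) :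
    (K →₀ ℤ) →ₗ[ℤ] (K →₀ ℤ) →ₗ[ℤ] ML K (m + 1) W :=
  LinearMap.mk₂ ℤ (fun x y => (multilinearCurryLeftEquiv ℤ
      (fun _ : Fin (m + 1) => (K →₀ ℤ)) W).symm
      (Finsupp.linearCombination ℤ (fun a => Ψs a x y)))
    (by
      intro x x' y
      rw [← map_add]
      congr 1
      apply Finsupp.lhom_ext
      intro a n
      rw [LinearMap.add_apply]
      simp only [Finsupp.linearCombination_single, map_add, LinearMap.add_apply, smul_add])
    (by
      intro c x y
      rw [← map_smul]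
      congr 1
      apply Finsupp.lhom_ext
      intro a n
      rw [LinearMap.smul_apply]
      simp only [Finsupp.linearCombination_single, map_smul, LinearMap.smul_apply]
      rw [smul_comm])
    (by
      intro x y y'
      rw [← map_add]
      congr 1
      apply Finsupp.lhom_ext
      intro a n
      rw [LinearMap.add_apply]
      simp only [Finsupp.linearCombination_single, map_add, smul_add])
    (by
      intro c x y
      rw [← map_smul]
      congr 1
      apply Finsupp.lhom_ext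
      intro a n
      rw [LinearMap.smul_apply]
      simp only [Finsupp.linearCombination_single, map_smul]
      rw [smul_comm])

theorem dform_sumForm {m : ℕ} {W : Type} [AddCommGroup W]
    (Ψs : K → ((K →₀ ℤ) →ₗ[ℤ] (K →₀ ℤ) →ₗ[ℤ] ML K m W)) (f : RatFunc K) :
    dform (sumForm Ψs) f = (rdv f).sum (fun a n => n • dform (Ψs a) f) := by
  have h1 : dform (sumForm Ψs) f = (Finsupp.linearCombination ℤ
      (fun a => Ψs a (rdv (1 - f)) (rdv f))) (rdv f) (fun _ => rdv f) := rfl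
  rw [h1, Finsupp.linearCombination_apply, Finsupp.sum, Finsupp.sum, sum_apply]
  rfl

theorem sumForm_alt {m : ℕ} {W : Type} [AddCommGroup W]
    (Ψs : K → ((K →₀ ℤ) →ₗ[ℤ] (K →₀ ℤ) →ₗ[ℤ] ML K m W)) (h : ∀ a x, Ψs a x x = 0)
    (x : K →₀ ℤ) : sumForm Ψs x x = 0 := by
  ext z
  have h1 : sumForm Ψs x x z = (Finsupp.linearCombination ℤ
      (fun a => Ψs a x x)) (z 0) (Fin.tail z) := rfl
  rw [h1]
  have h2 : (fun a => Ψs a x x) = (fun _ => 0) := funext fun a => h a x
  rw [h2, Finsupp.linearCombination_apply]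
  simp

theorem spec_C (a : K) (y : P1 K) :
    spec K a (y.map (RatFunc.C : K →+* RatFunc K)) = y := by
  classical
  cases y with
  | none => rfl
  | some y =>
    rw [Option.map_some]
    simp [spec, RatFunc.num_C, RatFunc.denom_C]

theorem G_succ (m : ℕ) (hG : G K m) : G K (m + 1) := by
  intro W _ _ μ hμ hc
  obtain ⟨L, hL⟩ := exists_ext (deltaS (RatFunc K) (R (m + 2) (RatFunc K))) μ
    (fun α hα => hμ α (LinearMap.mem_ker.2 hα))
  set θ : ZP (RatFunc K) →ₗ[ℤ] (UV (RatFunc K) →ₗ[ℤ] W) :=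
    (TensorProduct.curry L) ∘ₗ (R (m + 2) (RatFunc K)).mkQ with hθ
  have hθR : ∀ r ∈ R (m + 2) (RatFunc K), θ r = 0 := by
    intro r hr
    have h1 : (R (m + 2) (RatFunc K)).mkQ r = 0 := by
      rw [Submodule.mkQ_apply, Submodule.Quotient.mk_eq_zero]
      exact hr
    have h2 : θ r = (TensorProduct.curry L) ((R (m + 2) (RatFunc K)).mkQ r) := rfl
    rw [h2, h1]
    exact map_zero _
  have hμf : ∀ f : RatFunc K, μ (Finsupp.single (some f) 1) =
      θ (Finsupp.single (some f) 1) (cl f) := by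
    intro f
    rw [hL, LinearMap.comp_apply]
    unfold deltaS
    rw [Finsupp.linearCombination_single, one_smul]
    rfl
  clear_value θ
  have hnone : (Finsupp.single none 1 : ZP (RatFunc K)) ∈ R (m + 2) (RatFunc K) := by
    rw [R_eq]
    exact Submodule.subset_span (Or.inl (Or.inr rfl))
  have hzero : (Finsupp.single (some 0) 1 : ZP (RatFunc K)) ∈ R (m + 2) (RatFunc K) := by
    rw [R_eq]
    exact Submodule.subset_span (Or.inl (Or.inl rfl))
  -- reduction modulo constants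
  set cm : ZP (RatFunc K) →ₗ[ℤ] ZP (RatFunc K) :=
    (rmM (RatFunc.C : K →+* RatFunc K)) ∘ₗ (specZ K 0) with hcm
  have hcms : ∀ x : P1 (RatFunc K), cm (Finsupp.single x 1) =
      Finsupp.single ((spec K 0 x).map (RatFunc.C : K →+* RatFunc K)) 1 := by
    intro x
    rw [hcm, LinearMap.comp_apply, specZ, Finsupp.lmapDomain_apply, Finsupp.mapDomain_single,
      rmM_single]
  obtain ⟨Ψ1, hΨ1a, hΨ1⟩ := hG (UV (RatFunc K) →ₗ[ℤ] W) (θ - θ ∘ₗ cm)
    (fun α hα => by
      rw [LinearMap.sub_apply, LinearMap.comp_apply, ← map_sub]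
      exact hθR _ (const_AK K m α hα))
    (fun y => by
      rw [LinearMap.sub_apply, LinearMap.comp_apply, hcms, spec_C, sub_self])
  have hdec : ∀ f : RatFunc K, Spl f → θ (Finsupp.single (some f) 1) =
      θ (Finsupp.single ((spec K 0 (some f)).map (RatFunc.C : K →+* RatFunc K)) 1) +
        dform Ψ1 f := by
    intro f hf
    rw [← hΨ1 f hf, LinearMap.sub_apply, LinearMap.comp_apply, hcms]
    abel
  -- the constant part of the last variable
  have T1 : ∀ f : RatFunc K,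
      θ (Finsupp.single ((spec K 0 (some f)).map (RatFunc.C : K →+* RatFunc K)) 1)
        (kap K (LC 0 (cl f))) = 0 := by
    intro f
    cases hs : spec K 0 (some f) with
    | none =>
      rw [Option.map_none, hθR _ hnone]
      rfl
    | some y =>
      rw [Option.map_some]
      by_cases hy : y = 0
      · rw [hy, map_zero, hθR _ hzero]
        rfl
      · rw [LC_cl, spec_lc f 0 y hy hs, kap, rmU_cl, ← hμf]
        exact hc (some y)
  -- the functionals at the points
  let lam : K → (ZP K →ₗ[ℤ] W) := fun a =>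
    (LinearMap.applyₗ (eA a : UV (RatFunc K))) ∘ₗ θ ∘ₗ (rmM (RatFunc.C : K →+* RatFunc K))
  have hlam : ∀ a x, lam a x = θ (rmM (RatFunc.C : K →+* RatFunc K) x) (eA a) := fun a x => rfl
  have hlamR : ∀ a, ∀ r ∈ R (m + 2) K, lam a r = 0 := by
    intro a r hr
    have h3 : θ (rmM (RatFunc.C : K →+* RatFunc K) r) = 0 :=
      hθR _ (R_map (RatFunc.C : K →+* RatFunc K) m r hr)
    rw [hlam, h3]
    rfl
  have h2 : ∀ a, ∃ Ψ : (K →₀ ℤ) →ₗ[ℤ] (K →₀ ℤ) →ₗ[ℤ] ML K m W, (∀ x, Ψ x x = 0) ∧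
      ∀ f : RatFunc K, Spl f → (lam a ∘ₗ (specZ K 0 - specZ K a)) (Finsupp.single (some f) 1) =
        dform Ψ f := by
    intro a
    refine hG W (lam a ∘ₗ (specZ K 0 - specZ K a)) (fun α hα => ?_) (fun y => ?_)
    · rw [LinearMap.comp_apply, LinearMap.sub_apply]
      exact hlamR a _ (path_AK m a α hα)
    · rw [LinearMap.comp_apply, LinearMap.sub_apply, specZ, specZ, Finsupp.lmapDomain_apply,
        Finsupp.lmapDomain_apply, Finsupp.mapDomain_single, Finsupp.mapDomain_single, spec_C,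
        spec_C, sub_self, map_zero]
  choose Ψ2 hΨ2a hΨ2 using h2
  have T2 : ∀ f : RatFunc K, Spl f →
      θ (Finsupp.single ((spec K 0 (some f)).map (RatFunc.C : K →+* RatFunc K)) 1)
        (E (rdv f)) = (rdv f).sum (fun a n => n • dform (Ψ2 a) f) := by
    intro f hf
    set w := θ (Finsupp.single ((spec K 0 (some f)).map (RatFunc.C : K →+* RatFunc K)) 1) with hw
    have e1 : w (E (rdv f)) = (rdv f).sum (fun a n => n • w (eA a)) := by
      have e2 := lin_sum (w ∘ₗ E) (rdv f)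
      simp only [LinearMap.comp_apply, E_single, one_smul] at e2
      exact e2
    rw [e1]
    apply Finsupp.sum_congr
    intro a ha
    have ha' : rdv f a ≠ 0 := Finsupp.mem_support_iff.1 ha
    congr 1
    rw [← hΨ2 a f hf, LinearMap.comp_apply, LinearMap.sub_apply, specZ, specZ,
      Finsupp.lmapDomain_apply, Finsupp.lmapDomain_apply, Finsupp.mapDomain_single,
      Finsupp.mapDomain_single, map_sub, hlam, rmM_single, hlam, rmM_single]
    have e3 : θ (Finsupp.single (Option.map (RatFunc.C : K →+* RatFunc K)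
        (spec K a (some f))) 1) = 0 := by
      rcases spec_of_rdv f a ha' with h | h
      · rw [h, Option.map_none, hθR _ hnone]
      · rw [h, Option.map_some, map_zero, hθR _ hzero]
    rw [e3, LinearMap.zero_apply, sub_zero]
  obtain ⟨Ψ4, hΨ4a, hΨ4⟩ := T4 m hG W Ψ1 hΨ1a
  -- the form
  let EE : ML K m (UV (RatFunc K) →ₗ[ℤ] W) →ₗ[ℤ] ML K (m + 1) W :=
    (multilinearCurryRightEquiv ℤ (fun _ : Fin (m + 1) => (K →₀ ℤ)) W).symm.toLinearMap ∘ₗ
      { toFun := fun g => (LinearMap.lcomp ℤ W (E : (K →₀ ℤ) →ₗ[ℤ] UV (RatFunc K))).compMultilinearMap g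
        map_add' := fun g g' => by ext v; rfl
        map_smul' := fun n g => by ext v; rfl }
  have hEE : ∀ g v, EE g v = g (fun i => v i.castSucc) (E (v (Fin.last m))) := fun g v => rfl
  refine ⟨Ψ1.compr₂ EE + sumForm Ψ2 + sumForm Ψ4, fun x => ?_, fun f hf => ?_⟩
  · rw [LinearMap.add_apply, LinearMap.add_apply, LinearMap.add_apply, LinearMap.add_apply,
      sumForm_alt Ψ2 hΨ2a, sumForm_alt Ψ4 hΨ4a, LinearMap.compr₂_apply, hΨ1a, map_zero]
    simp
  · have e0 : dform (Ψ1.compr₂ EE + sumForm Ψ2 + sumForm Ψ4) f =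
        dform Ψ1 f (E (rdv f)) + dform (sumForm Ψ2) f + dform (sumForm Ψ4) f := rfl
    rw [e0, dform_sumForm, dform_sumForm, ← T2 f hf, ← hΨ4 f hf, hμf]
    have e1 : cl f = kap K (LC 0 (cl f)) + E (rdv f) := by
      have := eq_of_dec (spl_dec hf)
      rwa [dv_cl] at this
    rw [hdec f hf]
    conv_lhs => rw [e1]
    rw [LinearMap.add_apply, map_add, map_add, T1]
    abel

theorem G_all (m : ℕ) : G K m := by
  induction m with
  | zero => exact G_zero
  | succ m ih => exact G_succ m ih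

end Pool.Agent.V8H63.GD
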